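import Pool.Agent.H.MP_6c6e33_an.B

set_option autoImplicit false

namespace Pool.Agent.Results.MP_fbf723_an.Yes

open MeasureTheory

/-- the Hilbert space of square integrable functions on the line -/
abbrev L2 : Type := Lp ℂ 2 (volume : Measure ℝ)

/-- the Gabor system with parameters `a`, `b` and window `g` -/
def IsGabor (a b : ℝ) (g : L2) (f : ℤ × ℤ → L2) : Prop :=
  ∀ p : ℤ × ℤ, f p =ᵐ[volume] fun x : ℝ =>
    Complex.exp (2 * Real.pi * Complex.I * (p.1 * b * x)) * g (x - p.2 * a)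

/-- frames of a Hilbert space -/
def IsFrame {H : Type} [NormedAddCommGroup H] [InnerProductSpace ℂ H] (f : ℤ × ℤ → H) : Prop :=
  ∃ A B : ℝ, 0 < A ∧ 0 < B ∧ ∀ φ : H, Summable (fun p => ‖inner ℂ φ (f p)‖ ^ 2) ∧
    A * ‖φ‖ ^ 2 ≤ ∑' p, ‖inner ℂ φ (f p)‖ ^ 2 ∧ ∑' p, ‖inner ℂ φ (f p)‖ ^ 2 ≤ B * ‖φ‖ ^ 2

/-- some ordering indexed by `I` is represented by a bounded operator on the span -/
def Rep {H : Type} [NormedAddCommGroup H] [InnerProductSpace ℂ H] (I : Type) [Add I] [One I]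
    (f : ℤ × ℤ → H) : Prop :=
  ∃ (σ : I ≃ ℤ × ℤ) (T : Submodule.span ℂ (Set.range f) →L[ℂ] H),
    ∀ k, ∀ v : Submodule.span ℂ (Set.range f), (v : H) = f (σ k) → T v = f (σ (k + 1))

theorem result (a b : ℝ) (_ha : 0 < a) (_hb : 0 < b) (g : L2) (f : ℤ × ℤ → L2)
    (hf : IsGabor a b g f) (hF : IsFrame f) : Rep ℕ f ↔ Rep ℤ f := by
  obtain ⟨A, B, hA, -, hF⟩ := hF
  constructor
  · rintro ⟨τ, T, h⟩
    let σ : ℤ ≃ ℤ × ℤ := (Denumerable.eqv ℤ).trans (Denumerable.eqv (ℤ × ℤ)).symm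
    obtain ⟨S, -, h2⟩ := Pool.Agent.H.MP_6c6e33_an.rep
      (Pool.Agent.H.MP_6c6e33_an.rnat hf hA hF τ T fun k => h k _ rfl)
      (s := fun i => σ (σ.symm i + 1))
      (σ.injective.comp ((add_left_injective 1).comp σ.symm.injective))
    exact ⟨σ, S ∘L Submodule.subtypeL _, fun k v hv => by simpa [hv] using h2 (σ k)⟩
  rintro ⟨τ, T, h⟩
  let σ : ℕ ≃ ℤ × ℤ := (Denumerable.eqv (ℤ × ℤ)).symm
  obtain ⟨S, -, h2⟩ := Pool.Agent.H.MP_6c6e33_an.rep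
    (Pool.Agent.H.MP_6c6e33_an.rint hf hA hF τ T fun k => h k _ rfl)
    (s := fun i => σ (σ.symm i + 1))
    (σ.injective.comp ((add_left_injective 1).comp σ.symm.injective))
  exact ⟨σ, S ∘L Submodule.subtypeL _, fun k v hv => by simpa [hv] using h2 (σ k)⟩

end Pool.Agent.Results.MP_fbf723_an.Yes
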